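import Pool.Agent.Helper87.CC.Defs

/-!
# Algebras over finite fields in the geometric class
-/

set_option autoImplicit false

namespace Pool.Agent.Helper9.CQ.ConstOver

open Pool.Agent.Helper87.CC TensorProduct

theorem unramified (k : Type) [Field k] [Finite k] : Algebra.FormallyUnramified ℤ k := by
  obtain ⟨p, hp⟩ := CharP.exists k
  have hp0 : Fact p.Prime := ⟨CharP.char_is_prime k p⟩
  let _ : Algebra (ZMod p) k := ZMod.algebra k p
  have h1 : Algebra.FormallyUnramified ℤ (ZMod p) :=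
    Algebra.FormallyUnramified.of_surjective (R := ℤ) (A := ℤ) (B := ZMod p)
      (Algebra.ofId ℤ (ZMod p)) (ZMod.ringHom_surjective (algebraMap ℤ (ZMod p)))
  have h2 : Algebra.FormallyUnramified (ZMod p) k :=
    Algebra.FormallyUnramified.of_isSeparable (ZMod p) k
  have h3 : IsScalarTower ℤ (ZMod p) k := inferInstance
  exact Algebra.FormallyUnramified.comp ℤ (ZMod p) k

theorem exists_elem (k : Type) [Field k] [Finite k] : ∃ t : k ⊗[ℤ] k,
    (∀ s : k, ((1 : k) ⊗ₜ[ℤ] s - s ⊗ₜ[ℤ] (1 : k)) * t = 0) ∧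
      Algebra.TensorProduct.lmul' ℤ t = 1 := by
  have h1 := unramified k
  have h2 : Algebra.FiniteType ℤ k := by
    have : Module.Finite ℤ k := Module.Finite.of_finite
    infer_instance
  exact Algebra.FormallyUnramified.iff_exists_tensorProduct.1 h1

/-- a quotient with the universal property of the tensor product -/
theorem quot_equiv {k K W R : Type} [CommRing k] [CommRing K] [CommRing W] [CommRing R]
    [Algebra k K] [Algebra k W] [Algebra K R] [Algebra k R] [IsScalarTower k K R]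
    (j : W →+* R) (f : R)
    (hj : ∀ s : k, j (algebraMap k W s) - algebraMap k R s ∈ Ideal.span {f})
    (G0 : R →ₐ[K] K ⊗[k] W) (hG0j : ∀ w, G0 (j w) = (1 : K) ⊗ₜ[k] w) (hG0f : G0 f = 0)
    (hext : ∀ φ ψ : R →ₐ[K] R ⧸ Ideal.span {f}, (∀ w, φ (j w) = ψ (j w)) → φ = ψ) :
    Nonempty ((R ⧸ Ideal.span {f}) ≃ₐ[K] K ⊗[k] W) := by
  let g : W →ₐ[k] R ⧸ Ideal.span {f} :=
    { toRingHom := (Ideal.Quotient.mk (Ideal.span {f})).comp j
      commutes' := fun s => by
        have h1 := Ideal.Quotient.eq.2 (hj s)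
        exact h1 }
  have hg : ∀ w, g w = Ideal.Quotient.mk (Ideal.span {f}) (j w) := fun w => rfl
  let F : K ⊗[k] W →ₐ[K] R ⧸ Ideal.span {f} := Algebra.TensorProduct.lift
    (Algebra.ofId K (R ⧸ Ideal.span {f})) g (fun _ _ => Commute.all _ _)
  have hF : ∀ w, F ((1 : K) ⊗ₜ w) = Ideal.Quotient.mk (Ideal.span {f}) (j w) := by
    intro w
    simp only [F, Algebra.TensorProduct.lift_tmul, map_one, one_mul]
    exact hg w
  have hker : ∀ x ∈ Ideal.span {f}, G0 x = 0 := by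
    intro x hx
    obtain ⟨y, rfl⟩ := Ideal.mem_span_singleton'.1 hx
    rw [map_mul, hG0f, mul_zero]
  let G : (R ⧸ Ideal.span {f}) →ₐ[K] K ⊗[k] W := Ideal.Quotient.liftₐ (Ideal.span {f}) G0 hker
  have hG : ∀ x, G (Ideal.Quotient.mk (Ideal.span {f}) x) = G0 x := fun x => rfl
  have hGF : G.comp F = AlgHom.id K _ := by
    apply Algebra.TensorProduct.ext
    · ext
    · ext w
      change G (F ((1 : K) ⊗ₜ w)) = (1 : K) ⊗ₜ w
      rw [hF, hG, hG0j]
  have hFG : F.comp G = AlgHom.id K _ := by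
    have h1 : (F.comp G).comp (Ideal.Quotient.mkₐ K (Ideal.span {f})) =
        Ideal.Quotient.mkₐ K (Ideal.span {f}) := by
      apply hext
      intro w
      change F (G (Ideal.Quotient.mk (Ideal.span {f}) (j w))) = _
      rw [hG, hG0j, hF]
      rfl
    refine AlgHom.ext fun x => ?_
    obtain ⟨y, rfl⟩ := Ideal.Quotient.mk_surjective x
    exact DFunLike.congr_fun h1 y
  exact ⟨AlgEquiv.ofAlgHom G F hGF hFG⟩

/-- the idempotent -/
theorem exists_idem (k K W : Type) [Field k] [Finite k] [Field K] [Algebra k K] [CommRing W]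
    [Algebra k W] : ∃ f : K ⊗[ℤ] W, f * f = f ∧
      (∀ s : k, (1 : K) ⊗ₜ[ℤ] (algebraMap k W s) - (algebraMap k K s) ⊗ₜ[ℤ] (1 : W) ∈
        Ideal.span {f}) ∧
      ∀ (E : Type) [CommRing E] (φ : K ⊗[ℤ] W →+* E), (∀ s : k,
        φ ((1 : K) ⊗ₜ[ℤ] (algebraMap k W s)) = φ ((algebraMap k K s) ⊗ₜ[ℤ] (1 : W))) →
        φ f = 0 := by
  obtain ⟨t, ht, ht1⟩ := exists_elem k
  let m : k ⊗[ℤ] k →ₐ[ℤ] K ⊗[ℤ] W := Algebra.TensorProduct.map
    ((algebraMap k K).toIntAlgHom) ((algebraMap k W).toIntAlgHom)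
  have hmt : ∀ a b : k, m (a ⊗ₜ[ℤ] b) = (algebraMap k K a) ⊗ₜ[ℤ] (algebraMap k W b) :=
    fun a b => Algebra.TensorProduct.map_tmul _ _ _ _
  have hm : ∀ s : k, m ((1 : k) ⊗ₜ[ℤ] s - s ⊗ₜ[ℤ] (1 : k)) =
      (1 : K) ⊗ₜ[ℤ] (algebraMap k W s) - (algebraMap k K s) ⊗ₜ[ℤ] (1 : W) := by
    intro s
    rw [map_sub, hmt, hmt, map_one, map_one]
  have hann : ∀ x : k ⊗[ℤ] k, x * t =
      ((Algebra.TensorProduct.lmul' ℤ x) ⊗ₜ[ℤ] (1 : k)) * t := by
    intro x
    induction x using TensorProduct.induction_on with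
    | zero => simp
    | tmul a b =>
      have h1 := ht b
      rw [sub_mul, sub_eq_zero] at h1
      have h2 : a ⊗ₜ[ℤ] b = (a ⊗ₜ[ℤ] (1 : k)) * ((1 : k) ⊗ₜ[ℤ] b) := by
        rw [Algebra.TensorProduct.tmul_mul_tmul, mul_one, one_mul]
      rw [h2, mul_assoc, h1, ← mul_assoc, Algebra.TensorProduct.tmul_mul_tmul, mul_one]
      congr 2
      simp
    | add x y hx hy =>
      rw [add_mul, hx, hy, map_add, TensorProduct.add_tmul, add_mul]
  have htt : t * t = t := by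
    rw [hann t, ht1]
    have : ((1 : k) ⊗ₜ[ℤ] (1 : k)) = (1 : k ⊗[ℤ] k) := rfl
    rw [this, one_mul]
  have hee : m t * m t = m t := by
    rw [← map_mul, htt]
  refine ⟨1 - m t, ?_, ?_, ?_⟩
  · linear_combination hee
  · intro s
    have h1 : ((1 : K) ⊗ₜ[ℤ] (algebraMap k W s) - (algebraMap k K s) ⊗ₜ[ℤ] (1 : W)) * m t = 0 := by
      rw [← hm, ← map_mul, ht, map_zero]
    rw [Ideal.mem_span_singleton']
    refine ⟨(1 : K) ⊗ₜ[ℤ] (algebraMap k W s) - (algebraMap k K s) ⊗ₜ[ℤ] (1 : W), ?_⟩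
    rw [mul_sub, mul_one, h1, sub_zero]
  · intro E _ φ hφ
    have h1 : ∀ x : k ⊗[ℤ] k, φ (m x) =
        φ ((algebraMap k K (Algebra.TensorProduct.lmul' ℤ x)) ⊗ₜ[ℤ] (1 : W)) := by
      intro x
      induction x using TensorProduct.induction_on with
      | zero => simp
      | tmul a b =>
        have h2 : (algebraMap k K a) ⊗ₜ[ℤ] (algebraMap k W b) =
            ((algebraMap k K a) ⊗ₜ[ℤ] (1 : W)) * ((1 : K) ⊗ₜ[ℤ] (algebraMap k W b)) := by
          rw [Algebra.TensorProduct.tmul_mul_tmul, mul_one, one_mul]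
        have h3 : (algebraMap k K (a * b)) ⊗ₜ[ℤ] (1 : W) =
            ((algebraMap k K a) ⊗ₜ[ℤ] (1 : W)) * ((algebraMap k K b) ⊗ₜ[ℤ] (1 : W)) := by
          rw [Algebra.TensorProduct.tmul_mul_tmul, mul_one, map_mul]
        rw [hmt, h2, map_mul, hφ, Algebra.TensorProduct.lmul'_apply_tmul, h3, map_mul]
      | add x y hx hy =>
        rw [map_add, map_add, hx, hy, map_add, map_add, TensorProduct.add_tmul, map_add]
    rw [map_sub, map_one, h1, ht1, map_one]
    have h4 : ((1 : K) ⊗ₜ[ℤ] (1 : W)) = 1 := rfl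
    rw [h4, map_one, sub_self]

/-- **(E)** isotrivial algebras: the factor `K ⊗[k] W` of `K ⊗[ℤ] W` -/
theorem const_over {k : Type} [Field k] [Finite k] {K : Type} [Field K] [Algebra k K]
    {M : ∀ (A : Type) [CommRing A], Prop} (W : Type) [CommRing W] [Algebra k W] (hW : M W) :
    Geometric M K (K ⊗[k] W) := by
  obtain ⟨f, hff, hf1, hf2⟩ := exists_idem k K W
  have hgeo : Geometric M K ((K ⊗[ℤ] W) ⧸ Ideal.span {f}) :=
    Geometric.summand (K ⊗[ℤ] W) f hff (Geometric.const W hW)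
  let r : W →ₐ[ℤ] K ⊗[k] W :=
    ((Algebra.TensorProduct.includeRight : W →ₐ[k] K ⊗[k] W) : W →+* K ⊗[k] W).toIntAlgHom
  let G0 : K ⊗[ℤ] W →ₐ[K] K ⊗[k] W := Algebra.TensorProduct.lift (Algebra.ofId K (K ⊗[k] W))
    r (fun _ _ => Commute.all _ _)
  have hG0 : ∀ (a : K) (w : W), G0 (a ⊗ₜ w) = a ⊗ₜ w := by
    intro a w
    simp only [G0, Algebra.TensorProduct.lift_tmul]
    change (algebraMap K (K ⊗[k] W) a) * ((1 : K) ⊗ₜ[k] w) = _
    rw [Algebra.TensorProduct.algebraMap_apply, Algebra.TensorProduct.tmul_mul_tmul]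
    simp
  obtain ⟨e⟩ := quot_equiv (k := k) (K := K) (W := W) (R := K ⊗[ℤ] W)
    ((Algebra.TensorProduct.includeRight : W →ₐ[ℤ] K ⊗[ℤ] W) : W →+* K ⊗[ℤ] W) f hf1 G0
    (fun w => hG0 1 w) (by
      refine hf2 _ (G0 : K ⊗[ℤ] W →+* K ⊗[k] W) (fun s => ?_)
      change G0 _ = G0 _
      rw [hG0, hG0, Algebra.algebraMap_eq_smul_one (R := k) (A := W) s, ← TensorProduct.smul_tmul,
        Algebra.algebraMap_eq_smul_one (R := k) (A := K) s]) (by
      intro φ ψ h
      apply Algebra.TensorProduct.ext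
      · ext
      · ext w
        exact h w)
  exact Geometric.iso _ _ e hgeo

end Pool.Agent.Helper9.CQ.ConstOver
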