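import Pool.Agent.Helper29.CQ.Defs
import Pool.Agent.Helper87.CC.Ring

/-!
# The class of rings attached to a formal class
-/

set_option autoImplicit false

namespace Pool.Agent.Helper9.CQ.Sops

open Pool.Agent.Helper29.CQ Pool.Agent.Helper87.CC TensorProduct Polynomial

theorem char_ten {p : ℕ} (A : Type) [CommRing A] : ((p : ℕ) : Ten (ZMod p) A) = 0 := by
  have h := map_natCast (tinl (ZMod p) A) p
  rw [ZMod.natCast_self, map_zero] at h
  exact h.symm

theorem tinr_surj {p : ℕ} (hp : p.Prime) (A : Type) [CommRing A] :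
    Function.Surjective (tinr (ZMod p) A) := by
  have : NeZero p := ⟨hp.ne_zero⟩
  have h0 : Function.Surjective
      ((Algebra.TensorProduct.includeRight : A →ₐ[ℤ] ZMod p ⊗[ℤ] A) : A →+* ZMod p ⊗[ℤ] A) := by
    intro x
    induction x using TensorProduct.induction_on with
    | zero => exact ⟨0, map_zero _⟩
    | tmul a b =>
      refine ⟨((a.val : ℤ) : A) * b, ?_⟩
      have h1 : ((1 : ZMod p) ⊗ₜ[ℤ] (((a.val : ℤ) : A) * b)) = a ⊗ₜ[ℤ] b := by
        have h2 : ((a.val : ℤ) : A) * b = (a.val : ℤ) • b := by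
          rw [zsmul_eq_mul]
        have h3 : (a.val : ℤ) • (1 : ZMod p) = a := by
          rw [zsmul_eq_mul, mul_one, Int.cast_natCast, ZMod.natCast_zmod_val]
        rw [h2, ← TensorProduct.smul_tmul, h3]
      exact h1
    | add x y hx hy =>
      obtain ⟨a, ha⟩ := hx
      obtain ⟨b, hb⟩ := hy
      exact ⟨a + b, by rw [map_add, ha, hb]⟩
  exact h0

theorem ft_zmod {p : ℕ} : Algebra.FiniteType ℤ (ZMod p) :=
  ft_of_surj (R := ℤ) inferInstance (Int.castRingHom (ZMod p)) (ZMod.ringHom_surjective _)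

theorem ten_ten_equiv {p : ℕ} (T W : Type) [CommRing T] [CommRing W] :
    Nonempty (Ten (Ten (ZMod p) T) (Ten (ZMod p) W) ≃+* Ten (ZMod p) (Ten T W)) := by
  let X := Ten (Ten (ZMod p) T) (Ten (ZMod p) W)
  let a : Ten (ZMod p) T →+* X := tinl _ _
  let b : Ten (ZMod p) W →+* X := tinr _ _
  obtain ⟨j, hj1, hj2⟩ := (isTen T W).ex X (a.comp (tinr (ZMod p) T)) (b.comp (tinr (ZMod p) W))
  have hsub : ∀ (E : Type) [CommRing E] (f g : ZMod p →+* E), f = g := by
    intro E _ f g
    exact RingHom.ext_zmod f g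
  have h : IsTen (a.comp (tinl (ZMod p) T)) j := by
    refine ⟨?_, ?_⟩
    · intro E _ f g
      obtain ⟨h1, h11, h12⟩ := (isTen (ZMod p) T).ex E f (g.comp (tinl T W))
      obtain ⟨h2, h21, h22⟩ := (isTen (ZMod p) W).ex E f (g.comp (tinr T W))
      obtain ⟨h, hh1, hh2⟩ := (isTen (Ten (ZMod p) T) (Ten (ZMod p) W)).ex E h1 h2
      refine ⟨h, ?_, ?_⟩
      · rw [← RingHom.comp_assoc]
        change (h.comp (tinl _ _)).comp _ = f
        rw [hh1, h11]
      · apply (isTen T W).uniq
        · rw [RingHom.comp_assoc, hj1, ← RingHom.comp_assoc]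
          change (h.comp (tinl _ _)).comp _ = _
          rw [hh1, h12]
        · rw [RingHom.comp_assoc, hj2, ← RingHom.comp_assoc]
          change (h.comp (tinr _ _)).comp _ = _
          rw [hh2, h22]
    · intro E _ u v _ h2
      apply (isTen (Ten (ZMod p) T) (Ten (ZMod p) W)).uniq
      · apply (isTen (ZMod p) T).uniq
        · exact hsub _ _ _
        · change (u.comp a).comp _ = (v.comp a).comp _
          rw [RingHom.comp_assoc, RingHom.comp_assoc, ← hj1, ← RingHom.comp_assoc,
            ← RingHom.comp_assoc, h2]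
      · apply (isTen (ZMod p) W).uniq
        · exact hsub _ _ _
        · change (u.comp b).comp _ = (v.comp b).comp _
          rw [RingHom.comp_assoc, RingHom.comp_assoc, ← hj2, ← RingHom.comp_assoc,
            ← RingHom.comp_assoc, h2]
  obtain ⟨e, -⟩ := h.equiv (isTen (ZMod p) (Ten T W))
  exact ⟨e⟩

/-- **(P)** the ring class of the library attached to a formal class -/
theorem sops {p : ℕ} (hp : p.Prime) {P : ∀ (A : Type) [CommRing A], Prop}
    (hP : FormalClass p P) :
    SOps (fun A _ => Algebra.FiniteType ℤ A ∧ P (ZMod p ⊗[ℤ] A)) := by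
  have key : SOps (fun A _ => Algebra.FiniteType ℤ A ∧ P (Ten (ZMod p) A)) := by
    have hcurve : ∀ (B : Type) [CommRing B], Algebra.FiniteType ℤ B → ringKrullDim B ≤ 1 →
        P (Ten (ZMod p) B) := by
      intro B _ hB hdim
      refine hP.curve _ (ft_ten ft_zmod hB) (char_ten B) ?_
      exact (ringKrullDim_le_of_surjective (tinr (ZMod p) B) (tinr_surj hp B)).trans hdim
    have hint : P (Ten (ZMod p) ℤ) := by
      have : Fact p.Prime := ⟨hp⟩
      obtain ⟨e, -⟩ := (isTen (ZMod p) ℤ).equiv (IsTen.int (ZMod p))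
      refine hP.iso _ _ e.symm (hP.curve _ ft_zmod (ZMod.natCast_self p) ?_)
      rw [ringKrullDim_eq_zero_of_field]
      exact zero_le_one
    have hprod : ∀ (A B : Type) [CommRing A] [CommRing B], P (Ten (ZMod p) A) →
        P (Ten (ZMod p) B) → P (Ten (ZMod p) (Ten A B)) := by
      intro A B _ _ hA hB
      obtain ⟨e⟩ := ten_ten_equiv (p := p) A B
      exact hP.iso _ _ e (hP.tensor _ _ hA hB)
    have hcp : ∀ (T : Type) [CommRing T], CurveProd T → P (Ten (ZMod p) T) := by
      intro T _ hT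
      induction hT with
      | base => exact hint
      | tensor T B _ hB hB1 ih => exact hprod T B ih (hcurve B hB hB1)
      | iso S T _ e ih =>
        obtain ⟨e'⟩ := ten_congr (RingEquiv.refl (ZMod p)) e
        exact hP.iso _ _ e' ih
    exact
    { ft := fun A _ h => h.1
      zero := fun A _ h => ⟨(CurveProd.zero h).ft, hcp A (CurveProd.zero h)⟩
      iso := fun A B _ _ e h => by
        refine ⟨ft_of_surj h.1 (e : A →+* B) e.surjective, ?_⟩
        obtain ⟨e'⟩ := ten_congr (RingEquiv.refl (ZMod p)) e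
        exact hP.iso _ _ e' h.2
      glue := fun A _ f hA h1 h2 => by
        refine ⟨hA, ?_⟩
        obtain ⟨e1⟩ := ten_quot (ZMod p) f
        obtain ⟨e2⟩ := ten_away (ZMod p) f
        exact hP.glue _ (tinr (ZMod p) A f) (ft_ten ft_zmod hA) (char_ten A)
          (hP.iso _ _ e1.symm h1.2) (hP.iso _ _ e2.symm h2.2)
      closed := fun A _ f h1 h2 => by
        refine ⟨ft_of_surj h1.1 _ Ideal.Quotient.mk_surjective, ?_⟩
        obtain ⟨e1⟩ := ten_quot (ZMod p) f
        obtain ⟨e2⟩ := ten_away (ZMod p) f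
        exact hP.iso _ _ e1 (hP.closed _ (tinr (ZMod p) A f) h1.2 (hP.iso _ _ e2.symm h2.2))
      opn := fun A _ f h1 h2 => by
        refine ⟨ft_loc h1.1 f, ?_⟩
        obtain ⟨e1⟩ := ten_quot (ZMod p) f
        obtain ⟨e2⟩ := ten_away (ZMod p) f
        exact hP.iso _ _ e2 (hP.opn _ (tinr (ZMod p) A f) h1.2 (hP.iso _ _ e1.symm h2.2))
      summand := fun A _ f hf h => by
        refine ⟨ft_of_surj h.1 _ Ideal.Quotient.mk_surjective, ?_⟩
        obtain ⟨e1⟩ := ten_quot (ZMod p) f
        exact hP.iso _ _ e1 (hP.summand _ (tinr (ZMod p) A f) (by rw [← map_mul, hf]) h.2)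
      poly := fun A _ h => by
        refine ⟨ft_alg h.1 inferInstance, ?_⟩
        obtain ⟨e⟩ := ten_poly (ZMod p) A
        exact hP.iso _ _ e (hP.poly _ h.2)
      transfer := fun A B _ _ _ _ _ _ hA h => by
        refine ⟨hA, ?_⟩
        rcases subsingleton_or_nontrivial (Ten (ZMod p) A) with h0 | h0
        · exact hP.curve _ (ft_ten ft_zmod hA) (char_ten A) (by
            rw [ringKrullDim_eq_bot_of_subsingleton]
            exact bot_le)
        let _ : Algebra A (Ten (ZMod p) A) := (tinr (ZMod p) A).toAlgebra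
        obtain ⟨e⟩ := ten_algebra (ZMod p) A B
        have h1 : Nontrivial (Ten (ZMod p) A ⊗[A] B) := by
          have hn : Nontrivial A := (algebraMap A (Ten (ZMod p) A)).domain_nontrivial
          have hi : Nonempty (Module.Free.ChooseBasisIndex A B) :=
            (Module.Free.chooseBasis A B).index_nonempty
          obtain ⟨i⟩ := hi
          let b := Module.Basis.baseChange (Ten (ZMod p) A) (Module.Free.chooseBasis A B)
          exact ⟨⟨b i, 0, b.ne_zero i⟩⟩
        exact hP.transfer (Ten (ZMod p) A) (Ten (ZMod p) A ⊗[A] B) (ft_ten ft_zmod hA)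
          (hP.iso _ _ e.symm h.2)
      curve := fun T W _ _ hT hW => ⟨ft_ten hT.ft hW.1, hprod T W (hcp T hT) hW.2⟩
      int := ⟨inferInstance, hint⟩ }
  exact key

end Pool.Agent.Helper9.CQ.Sops
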