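import Pool.Agent.Helper29.CQ.Plane
import Pool.Agent.Helper29.CQ.Defs
import Pool.Agent.Helper9.CQ.Sops
import Pool.Agent.Helper9.CQ.ConstOver
import Pool.Agent.Helper20.BL.Geo
import Pool.Agent.Helper62.TS.Dim
import Pool.Agent.Helper87.CC.Mult

/-!
# The fibres of the threefold `f(x, y) z ^ n = v (1 - v)` over the `z`-line
-/

set_option autoImplicit false

namespace Pool.Agent.Helper9.CQ.Thr

open Pool.Agent.Helper29.CQ Pool.Agent.Helper65.CC Pool.Agent.Helper87.CC
  Pool.Agent.Helper65.CC.KFn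
open Polynomial TensorProduct

/-! ### Polynomials of degree at most four -/

/-- exponents -/
noncomputable def T (i j : ℕ) : Fin 2 →₀ ℕ := Finsupp.equivFunOnFinite.symm ![i, j]

/-- the coefficients -/
noncomputable def cf {k K : Type} [Field k] [Field K] (φ : k →+* K) (f : MvPolynomial (Fin 2) k) :
    ℕ → ℕ → K := fun i j => φ (MvPolynomial.coeff (T i j) f)

theorem eval_F4 {k K : Type} [Field k] [Field K] (φ : k →+* K) (f : MvPolynomial (Fin 2) k)
    (hf : f.totalDegree ≤ 4) {R : Type} [CommRing R] [Algebra K R] (x : Fin 2 → R) :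
    MvPolynomial.eval₂ ((algebraMap K R).comp φ) x f = F4 (cf φ f) (x 0) (x 1) 1 := by
  classical
  let F : (Fin 2 →₀ ℕ) → R := fun d =>
    algebraMap K R (φ (MvPolynomial.coeff d f)) * ∏ i, x i ^ d i
  let S : Finset (Σ _ : ℕ, ℕ) := (Finset.range 5).sigma fun i => Finset.range (5 - i)
  let τ : (Σ _ : ℕ, ℕ) → (Fin 2 →₀ ℕ) := fun s => T s.1 s.2
  have h1 : MvPolynomial.eval₂ ((algebraMap K R).comp φ) x f = ∑ d ∈ f.support, F d := by
    rw [MvPolynomial.eval₂_eq']
    rfl
  have hsum : ∀ d ∈ f.support, d 0 + d 1 ≤ 4 := by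
    intro d hd
    have h2 := MvPolynomial.le_totalDegree hd
    have h3 : (d.sum fun _ e => e) = d 0 + d 1 := by
      rw [Finsupp.sum_fintype _ _ (fun _ => rfl), Fin.sum_univ_two]
    rw [h3] at h2
    exact h2.trans hf
  have h2 : ∑ d ∈ f.support, F d = ∑ d ∈ S.image τ, F d := by
    apply Finset.sum_subset
    · intro d hd
      have h3 := hsum d hd
      rw [Finset.mem_image]
      refine ⟨⟨d 0, d 1⟩, ?_, ?_⟩
      · simp only [S, Finset.mem_sigma, Finset.mem_range]
        omega
      · ext k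
        fin_cases k
        · rfl
        · rfl
    · intro d _ hd
      rw [MvPolynomial.notMem_support_iff] at hd
      simp only [F, hd, map_zero, zero_mul]
  have h3 : ∑ d ∈ S.image τ, F d = ∑ s ∈ S, F (τ s) := by
    apply Finset.sum_image
    rintro ⟨a, b⟩ _ ⟨a', b'⟩ _ h
    have h4 : a = a' := DFunLike.congr_fun h 0
    have h5 : b = b' := DFunLike.congr_fun h 1
    rw [h4, h5]
  have h4 : ∀ i j, F (T i j) = algebraMap K R (cf φ f i j) * (x 0 ^ i * x 1 ^ j) := by
    intro i j
    simp only [F, Fin.prod_univ_two]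
    rfl
  rw [h1, h2, h3, Finset.sum_sigma]
  simp only [τ, h4, Finset.sum_range_succ, Finset.sum_range_zero, F4]
  ring

/-! ### Rings of characteristic `p` -/

theorem zmod_ten {p : ℕ} (A : Type) [CommRing A] (hA : (p : A) = 0) :
    Nonempty (Ten (ZMod p) A ≃+* A) := by
  have hc : ∃ i : ZMod p →+* A, True := by
    have h1 : CharP A (ringChar A) := inferInstance
    have h2 : ringChar A ∣ p := (ringChar.spec A p).1 hA
    exact ⟨ZMod.castHom h2 A, trivial⟩
  obtain ⟨i, -⟩ := hc
  have h : IsTen i (RingHom.id A) := by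
    refine ⟨?_, ?_⟩
    · intro E _ f g
      exact ⟨g, RingHom.ext_zmod _ _, RingHom.comp_id g⟩
    · intro E _ u v _ h2
      rwa [RingHom.comp_id, RingHom.comp_id] at h2
  obtain ⟨e, -⟩ := (isTen (ZMod p) A).equiv h
  exact ⟨e⟩

/-! ### The threefold over the line -/

section

variable {k : Type} [Field k] (n : ℕ) (f : MvPolynomial (Fin 2) k)

/-- the defining polynomial -/
noncomputable abbrev gg : Polynomial (Polynomial (MvPolynomial (Fin 2) k)) :=
  C (C f * X ^ n) - X * (1 - X)

/-- the structure of a scheme over the `z`-line -/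
noncomputable def base : Polynomial k →+* Thr n f :=
  (AdjoinRoot.of (gg n f)).comp (Polynomial.mapRingHom (MvPolynomial.C : k →+* MvPolynomial (Fin 2) k))

theorem base_C (a : k) : base n f (C a) = AdjoinRoot.of (gg n f) (C (MvPolynomial.C a)) := by
  simp [base]

theorem base_X : base n f X = AdjoinRoot.of (gg n f) X := by
  simp [base]

theorem rel : AdjoinRoot.of (gg n f) X ^ n * AdjoinRoot.of (gg n f) (C f) -
    AdjoinRoot.root (gg n f) * (1 - AdjoinRoot.root (gg n f)) = 0 := by
  have h := AdjoinRoot.eval₂_root (gg n f)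
  have h1 : ∀ (S : Type) [CommRing S] (φ : Polynomial (MvPolynomial (Fin 2) k) →+* S) (r : S),
      Polynomial.eval₂ φ r (gg n f) = φ X ^ n * φ (C f) - r * (1 - r) := by
    intro S _ φ r
    simp only [gg, Polynomial.eval₂_sub, Polynomial.eval₂_mul, Polynomial.eval₂_C,
      Polynomial.eval₂_X, Polynomial.eval₂_one]
    rw [φ.map_mul, φ.map_pow, mul_comm (φ (C f))]
  rw [h1] at h
  exact h

theorem hom_rel {A S : Type} [CommRing A] [CommRing S] (ι : A →+* S) (a b r : A)
    (h : a ^ n * b - r * (1 - r) = 0) : ι a ^ n * ι b - ι r * (1 - ι r) = 0 := by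
  have h1 := congrArg ι h
  rw [map_sub, map_mul, map_mul, map_sub, map_one, map_zero, map_pow] at h1
  exact h1

/-- the fibre -/
def fib {K : Type} [Field K] (z : K) (n : ℕ) (c : ℕ → ℕ → K) : KFn K :=
  (A3 K).cls ⟨fun {R} _ _ x => algebraMap K R z ^ n * F4 c x.1 x.2.1 1 - x.2.2 * (1 - x.2.2),
    fun f x => by
      rw [map_sub, map_mul, map_pow, AlgHom.commutes, F4_map, map_one, map_mul, map_sub, map_one]
      rfl⟩

theorem rep_fib (hf : f.totalDegree ≤ 4) {K : Type} [Field K] [Algebra (Polynomial k) K] :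
    let _ : Algebra (Polynomial k) (Thr n f) := (base n f).toAlgebra
    ∃ a, (fib (algebraMap (Polynomial k) K X) n
      (cf ((algebraMap (Polynomial k) K).comp C) f)).Rep (K ⊗[Polynomial k] Thr n f) a := by
  intro _
  let φ : k →+* K := (algebraMap (Polynomial k) K).comp C
  let z : K := algebraMap (Polynomial k) K X
  let ι : Thr n f →ₐ[Polynomial k] K ⊗[Polynomial k] Thr n f :=
    Algebra.TensorProduct.includeRight
  have hι : ∀ r : Polynomial k, algebraMap K (K ⊗[Polynomial k] Thr n f)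
      (algebraMap (Polynomial k) K r) = ι (base n f r) := by
    intro r
    have h1 := ι.commutes r
    change ι (base n f r) = _ at h1
    rw [h1, IsScalarTower.algebraMap_apply (Polynomial k) K (K ⊗[Polynomial k] Thr n f)]
  let x0 : Thr n f := AdjoinRoot.of (gg n f) (C (MvPolynomial.X 0))
  let y0 : Thr n f := AdjoinRoot.of (gg n f) (C (MvPolynomial.X 1))
  let v0 : Thr n f := AdjoinRoot.root (gg n f)
  have hev : F4 (cf φ f) (ι x0) (ι y0) 1 = ι (AdjoinRoot.of (gg n f) (C f)) := by
    have h1 := eval_F4 φ f hf (R := K ⊗[Polynomial k] Thr n f) ![ι x0, ι y0]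
    have h2 : MvPolynomial.eval₂ ((algebraMap K (K ⊗[Polynomial k] Thr n f)).comp φ)
        ![ι x0, ι y0] f = (((ι : Thr n f →+* _).comp (AdjoinRoot.of (gg n f))).comp C) f := by
      have h3 : MvPolynomial.eval₂Hom ((algebraMap K (K ⊗[Polynomial k] Thr n f)).comp φ)
          ![ι x0, ι y0] = ((ι : Thr n f →+* _).comp (AdjoinRoot.of (gg n f))).comp C := by
        apply MvPolynomial.ringHom_ext
        · intro a
          rw [MvPolynomial.eval₂Hom_C]
          change algebraMap K _ (algebraMap (Polynomial k) K (C a)) = ι (AdjoinRoot.of _ _)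
          rw [hι, base_C]
        · intro i
          rw [MvPolynomial.eval₂Hom_X']
          fin_cases i <;> rfl
      exact RingHom.congr_fun h3 f
    exact h1.symm.trans h2
  have hrel : algebraMap K (K ⊗[Polynomial k] Thr n f) z ^ n * F4 (cf φ f) (ι x0) (ι y0) 1 -
      ι v0 * (1 - ι v0) = 0 := by
    rw [hev, hι, base_X]
    exact hom_rel n (ι : Thr n f →+* K ⊗[Polynomial k] Thr n f) _ _ _ (rel n f)
  refine ⟨⟨(ι x0, ι y0, ι v0), hrel⟩, ?_⟩
  intro R _ _ pt
  obtain ⟨⟨x', y', v'⟩, hpt⟩ := pt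
  have hpt' : algebraMap K R z ^ n * F4 (cf φ f) x' y' 1 - v' * (1 - v') = 0 := hpt
  let _ : Algebra (Polynomial k) R :=
    ((algebraMap K R).comp (algebraMap (Polynomial k) K)).toAlgebra
  have hst : IsScalarTower (Polynomial k) K R := IsScalarTower.of_algebraMap_eq fun _ => rfl
  let h0 : MvPolynomial (Fin 2) k →+* R :=
    MvPolynomial.eval₂Hom ((algebraMap K R).comp φ) ![x', y']
  let h1 : Polynomial (MvPolynomial (Fin 2) k) →+* R := Polynomial.eval₂RingHom h0 (algebraMap K R z)
  have h1C : ∀ a, h1 (C a) = h0 a := fun a => Polynomial.eval₂_C _ _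
  have h1X : h1 X = algebraMap K R z := Polynomial.eval₂_X _ _
  have h0f : h0 f = F4 (cf φ f) x' y' 1 := eval_F4 φ f hf (R := R) ![x', y']
  have hlift : Polynomial.eval₂ h1 v' (gg n f) = 0 := by
    simp only [gg, Polynomial.eval₂_sub, Polynomial.eval₂_mul, Polynomial.eval₂_C,
      Polynomial.eval₂_X, Polynomial.eval₂_one]
    rw [map_mul, map_pow, h1C, h1X, h0f, mul_comm (F4 _ _ _ _)]
    exact hpt'
  let h2 : Thr n f →+* R := AdjoinRoot.lift h1 v' hlift
  have h2o : ∀ a, h2 (AdjoinRoot.of (gg n f) a) = h1 a := fun a => AdjoinRoot.lift_of hlift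
  have h2r : h2 (AdjoinRoot.root (gg n f)) = v' := AdjoinRoot.lift_root hlift
  have hcomm : ∀ r : Polynomial k, h2 (base n f r) = algebraMap K R (algebraMap (Polynomial k) K r) := by
    intro r
    have h3 : h2.comp (base n f) = (algebraMap K R).comp (algebraMap (Polynomial k) K) := by
      apply Polynomial.ringHom_ext
      · intro a
        rw [RingHom.comp_apply, base_C, h2o, h1C]
        exact MvPolynomial.eval₂Hom_C _ _ _
      · rw [RingHom.comp_apply, base_X, h2o, h1X]
        rfl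
    exact RingHom.congr_fun h3 r
  let h2' : Thr n f →ₐ[Polynomial k] R := { h2 with commutes' := hcomm }
  let g0 : K ⊗[Polynomial k] Thr n f →ₐ[K] R :=
    Algebra.TensorProduct.lift (Algebra.ofId K R) h2' (fun _ _ => Commute.all _ _)
  have hg0 : ∀ a : Thr n f, g0 (ι a) = h2 a := by
    intro a
    change g0 ((1 : K) ⊗ₜ a) = h2 a
    simp only [g0, Algebra.TensorProduct.lift_tmul, map_one, one_mul]
    rfl
  refine ⟨g0, ?_, ?_⟩
  · apply Subtype.ext
    change (g0 (ι x0), g0 (ι y0), g0 (ι v0)) = (x', y', v')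
    rw [hg0, hg0, hg0, h2r, h2o, h2o, h1C, h1C]
    simp [h0]
  · intro g' hg'
    have e0 := congrArg Subtype.val hg'
    change (g' (ι x0), g' (ι y0), g' (ι v0)) = (x', y', v') at e0
    have e1 : g' (ι x0) = x' := congrArg (fun q => q.1) e0
    have e2 : g' (ι y0) = y' := congrArg (fun q => q.2.1) e0
    have e3 : g' (ι v0) = v' := congrArg (fun q => q.2.2) e0
    apply Algebra.TensorProduct.ext
    · ext
    · apply AlgHom.coe_ringHom_injective
      apply AdjoinRoot.ringHom_ext
      · apply Polynomial.ringHom_ext'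
        · apply MvPolynomial.ringHom_ext
          · intro a
            change g' (ι (AdjoinRoot.of (gg n f) (C (MvPolynomial.C a)))) =
              g0 (ι (AdjoinRoot.of (gg n f) (C (MvPolynomial.C a))))
            rw [← base_C, ← hι, AlgHom.commutes, AlgHom.commutes]
          · intro i
            fin_cases i
            · change g' (ι x0) = g0 (ι x0)
              rw [e1, hg0, h2o, h1C]
              simp [h0]
            · change g' (ι y0) = g0 (ι y0)
              rw [e2, hg0, h2o, h1C]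
              simp [h0]
        · change g' (ι (AdjoinRoot.of (gg n f) X)) = g0 (ι (AdjoinRoot.of (gg n f) X))
          rw [← base_X, ← hι, AlgHom.commutes, AlgHom.commutes]
      · change g' (ι v0) = g0 (ι v0)
        rw [e3, hg0, h2r]

end

/-! ### The fibres are double planes -/

section

variable {K : Type} [Field K] {G : ∀ (R : Type) [CommRing R] [Algebra K R], Prop}

/-- the fibre over zero -/
theorem mem_fib_zero (hG : GOps K G) {n : ℕ} (hn : 0 < n) (c : ℕ → ℕ → K) :
    (fib (0 : K) n c).Mem G := by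
  have h0 : ∀ (R : Type) [CommRing R] [Algebra K R], algebraMap K R (0 : K) ^ n = 0 := by
    intro R _ _
    rw [map_zero, zero_pow hn.ne']
  have hp : ∀ (R : Type) [CommRing R] [Algebra K R] (x : (fib (0 : K) n c).obj R),
      x.1.2.2 * (1 - x.1.2.2) = 0 := by
    intro R _ _ x
    have h1 : algebraMap K R 0 ^ n * F4 c x.1.1 x.1.2.1 1 - x.1.2.2 * (1 - x.1.2.2) = 0 := x.2
    rw [h0, zero_mul, zero_sub, neg_eq_zero] at h1
    exact h1
  let u : Coord (fib (0 : K) n c) := ⟨fun x => x.1.2.2, fun _ _ => rfl⟩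
  refine Mem.glue hG.toKOps u ?_ ?_
  · refine Mem.of_iso (F' := A2 K) ?_ (mem_A2 hG)
    exact
      { hom := fun x => (x.1.1.1, x.1.1.2.1)
        inv := fun {R} _ _ y => ⟨⟨(y.1, y.2, 1), by
          change algebraMap K R 0 ^ n * F4 c y.1 y.2 1 - 1 * (1 - 1) = 0
          rw [h0]
          ring⟩, isUnit_one⟩
        inv_hom := fun {R} _ _ x => by
          have h1 := hp R x.1
          have h2 : IsUnit x.1.1.2.2 := x.2
          have h3 : 1 - x.1.1.2.2 = 0 := h2.mul_right_eq_zero.1 h1
          have h4 : x.1.1.2.2 = 1 := (sub_eq_zero.1 h3).symm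
          refine Subtype.ext (Subtype.ext (Prod.ext rfl (Prod.ext rfl ?_)))
          exact h4.symm
        hom_inv := fun _ => rfl
        nat := fun _ _ => rfl }
  · refine Mem.of_iso (F' := A2 K) ?_ (mem_A2 hG)
    exact
      { hom := fun x => (x.1.1.1, x.1.1.2.1)
        inv := fun {R} _ _ y => ⟨⟨(y.1, y.2, 0), by
          change algebraMap K R 0 ^ n * F4 c y.1 y.2 1 - 0 * (1 - 0) = 0
          rw [h0]
          ring⟩, rfl⟩
        inv_hom := fun {R} _ _ x => by
          have h4 : x.1.1.2.2 = 0 := x.2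
          refine Subtype.ext (Subtype.ext (Prod.ext rfl (Prod.ext rfl ?_)))
          exact h4.symm
        hom_inv := fun _ => rfl
        nat := fun _ _ => rfl }

/-- the coefficients of the double plane -/
def cc (w : K) (c : ℕ → ℕ → K) : ℕ → ℕ → K := fun i j =>
  if i = 0 ∧ j = 0 then 1 - 4 * w * c i j else -4 * w * c i j

theorem F4_cc (w : K) (c : ℕ → ℕ → K) {R : Type} [CommRing R] [Algebra K R] (x y : R) :
    F4 (cc w c) x y 1 = 1 - 4 * algebraMap K R w * F4 c x y 1 := by
  have h4 : algebraMap K R 4 = 4 := map_ofNat _ 4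
  simp only [F4, cc]
  norm_num [h4]
  ring

theorem mem_fib_ne (h2 : (2 : K) ≠ 0) {z : K} {n : ℕ} {c : ℕ → ℕ → K}
    (h : (V (cc (z ^ n) c)).Mem G) : (fib z n c).Mem G := by
  have e2 : ∀ (R : Type) [CommRing R] [Algebra K R], algebraMap K R (2⁻¹) * 2 = 1 := by
    intro R _ _
    rw [← map_ofNat (algebraMap K R) 2, ← map_mul, inv_mul_cancel₀ h2, map_one]
  refine Mem.of_iso (F' := V (cc (z ^ n) c)) ?_ h
  exact
    { hom := fun {R} _ _ x => ⟨(x.1.1, x.1.2.1, 1 - 2 * x.1.2.2), by
        have h1 : algebraMap K R z ^ n * F4 c x.1.1 x.1.2.1 1 - x.1.2.2 * (1 - x.1.2.2) = 0 := x.2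
        change (1 - 2 * x.1.2.2) ^ 2 - F4 (cc (z ^ n) c) x.1.1 x.1.2.1 1 = 0
        rw [F4_cc, map_pow]
        linear_combination 4 * h1⟩
      inv := fun {R} _ _ y => ⟨(y.1.1, y.1.2.1, algebraMap K R (2⁻¹) * (1 - y.1.2.2)), by
        have h1 : y.1.2.2 ^ 2 - F4 (cc (z ^ n) c) y.1.1 y.1.2.1 1 = 0 := y.2
        rw [F4_cc, map_pow] at h1
        change algebraMap K R z ^ n * F4 c y.1.1 y.1.2.1 1 - (algebraMap K R (2⁻¹) *
          (1 - y.1.2.2)) * (1 - algebraMap K R (2⁻¹) * (1 - y.1.2.2)) = 0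
        have h3 := e2 R
        linear_combination (algebraMap K R (2⁻¹)) ^ 2 * h1 +
          (- (algebraMap K R z ^ n * F4 c y.1.1 y.1.2.1 1) * (1 + 2 * algebraMap K R (2⁻¹)) +
            algebraMap K R (2⁻¹) * (1 - y.1.2.2)) * h3⟩
      inv_hom := fun {R} _ _ x => Subtype.ext (Prod.ext rfl (Prod.ext rfl (by
        change algebraMap K R (2⁻¹) * (1 - (1 - 2 * x.1.2.2)) = x.1.2.2
        linear_combination x.1.2.2 * e2 R)))
      hom_inv := fun {R} _ _ y => Subtype.ext (Prod.ext rfl (Prod.ext rfl (by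
        change 1 - 2 * (algebraMap K R (2⁻¹) * (1 - y.1.2.2)) = y.1.2.2
        linear_combination - (1 - y.1.2.2) * e2 R)))
      nat := fun {R S} _ _ _ _ f x => Subtype.ext (Prod.ext rfl (Prod.ext rfl (by
        change f (1 - 2 * x.1.2.2) = 1 - 2 * f x.1.2.2
        rw [map_sub, map_one, map_mul, map_ofNat]))) }

/-- the curve at infinity is a constant curve -/
theorem rep_BC {k : Type} [Field k] [Algebra k K] (h0 : k[X]) :
    ∃ a, (BC (h0.map (algebraMap k K))).Rep
      (K ⊗[k] AdjoinRoot (X ^ 2 - C h0 : Polynomial (Polynomial k))) a := by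
  set g : Polynomial (Polynomial k) := X ^ 2 - C h0 with hg
  let ι : AdjoinRoot g →ₐ[k] K ⊗[k] AdjoinRoot g := Algebra.TensorProduct.includeRight
  let x0 : AdjoinRoot g := AdjoinRoot.of g X
  let u0 : AdjoinRoot g := AdjoinRoot.root g
  have hx0 : ∀ h : k[X], aeval x0 h = AdjoinRoot.of g h := by
    intro h
    have h1 : (aeval x0 : k[X] →ₐ[k] AdjoinRoot g) = (AdjoinRoot.ofAlgHom k g : _) := by
      apply Polynomial.algHom_ext
      rw [aeval_X]
      rfl
    rw [h1]
    rfl
  have hu0 : u0 ^ 2 = AdjoinRoot.of g h0 := by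
    have h1 := AdjoinRoot.eval₂_root g
    have h3 : ∀ (S : Type) [CommRing S] (φ : Polynomial k →+* S) (r : S),
        Polynomial.eval₂ φ r g = r ^ 2 - φ h0 := by
      intro S _ φ r
      rw [hg, eval₂_sub, eval₂_pow, eval₂_X, eval₂_C]
    rw [h3, sub_eq_zero] at h1
    exact h1
  have hrel : ι u0 ^ 2 - aeval (ι x0) (h0.map (algebraMap k K)) = 0 := by
    rw [aeval_map_algebraMap, aeval_algHom_apply, hx0, ← map_pow, hu0, sub_self]
  refine ⟨⟨(ι x0, ι u0), hrel⟩, ?_⟩
  intro R _ _ pt
  obtain ⟨⟨x, u⟩, hpt⟩ := pt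
  have hpt' : u ^ 2 - aeval x (h0.map (algebraMap k K)) = 0 := hpt
  let _ : Algebra k R := ((algebraMap K R).comp (algebraMap k K)).toAlgebra
  have hst : IsScalarTower k K R := IsScalarTower.of_algebraMap_eq fun _ => rfl
  rw [aeval_map_algebraMap] at hpt'
  have he : eval₂ ((aeval x : k[X] →ₐ[k] R) : k[X] →+* R) u g = 0 := by
    rw [hg, eval₂_sub, eval₂_pow, eval₂_X, eval₂_C]
    exact hpt'
  let h2 : AdjoinRoot g →+* R := AdjoinRoot.lift ((aeval x : k[X] →ₐ[k] R) : k[X] →+* R) u he
  have h2o : ∀ a, h2 (AdjoinRoot.of g a) = aeval x a := fun a => AdjoinRoot.lift_of he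
  have h2r : h2 u0 = u := AdjoinRoot.lift_root he
  have hcomm : ∀ r : k, h2 (algebraMap k (AdjoinRoot g) r) = algebraMap k R r := by
    intro r
    have h3 : algebraMap k (AdjoinRoot g) r = AdjoinRoot.of g (C r) := rfl
    rw [h3, h2o, aeval_C]
  let h2' : AdjoinRoot g →ₐ[k] R := { h2 with commutes' := hcomm }
  let g0 : K ⊗[k] AdjoinRoot g →ₐ[K] R :=
    Algebra.TensorProduct.lift (Algebra.ofId K R) h2' (fun _ _ => Commute.all _ _)
  have hg0 : ∀ a : AdjoinRoot g, g0 (ι a) = h2 a := by
    intro a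
    change g0 ((1 : K) ⊗ₜ a) = h2 a
    simp only [g0, Algebra.TensorProduct.lift_tmul, map_one, one_mul]
    rfl
  refine ⟨g0, ?_, ?_⟩
  · apply Subtype.ext
    change (g0 (ι x0), g0 (ι u0)) = (x, u)
    rw [hg0, hg0, h2r, h2o, aeval_X]
  · intro g' hg'
    have e0 := congrArg Subtype.val hg'
    change (g' (ι x0), g' (ι u0)) = (x, u) at e0
    have e1 : g' (ι x0) = x := congrArg (fun q => q.1) e0
    have e2 : g' (ι u0) = u := congrArg (fun q => q.2) e0
    apply Algebra.TensorProduct.ext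
    · ext
    · apply AlgHom.coe_ringHom_injective
      apply AdjoinRoot.ringHom_ext
      · apply Polynomial.ringHom_ext
        · intro a
          change g' (ι (algebraMap k (AdjoinRoot g) a)) = g0 (ι (algebraMap k (AdjoinRoot g) a))
          rw [AlgHom.commutes, IsScalarTower.algebraMap_apply k K (K ⊗[k] AdjoinRoot g),
            AlgHom.commutes, AlgHom.commutes]
        · change g' (ι x0) = g0 (ι x0)
          rw [e1, hg0, h2o, aeval_X]
      · change g' (ι u0) = g0 (ι u0)
        rw [e2, hg0, h2r]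

theorem dim_BC {k : Type} [Field k] (h0 : k[X]) :
    ringKrullDim (AdjoinRoot (X ^ 2 - C h0 : Polynomial (Polynomial k))) ≤ 1 := by
  have hm : (X ^ 2 - C h0 : Polynomial (Polynomial k)).Monic := monic_X_pow_sub_C _ two_ne_zero
  have h1 : Module.Finite k[X] (AdjoinRoot (X ^ 2 - C h0 : Polynomial (Polynomial k))) :=
    hm.finite_adjoinRoot
  have h2 : Algebra.IsIntegral k[X] (AdjoinRoot (X ^ 2 - C h0 : Polynomial (Polynomial k))) :=
    Algebra.IsIntegral.of_finite _ _
  refine (Pool.Agent.Helper62.TS.dim_integral_le (R := k[X])).trans ?_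
  rw [Polynomial.ringKrullDim_of_isNoetherianRing, ringKrullDim_eq_zero_of_field]
  exact le_of_eq (zero_add 1)

/-- the curve at infinity -/
theorem mem_inf [IsAlgClosed K] (h2 : (2 : K) ≠ 0) (hG : GOps K G) {k : Type} [Field k]
    [Finite k] [Algebra k K] (hW : ∀ (W : Type) [CommRing W] [Algebra k W],
      Algebra.FiniteType ℤ W → ringKrullDim W ≤ 1 → G (K ⊗[k] W)) (f : MvPolynomial (Fin 2) k)
    {w : K} (hw : w ≠ 0) :
    (BC (bin4 (lead (cc w (cf (algebraMap k K) f))) (X : K[X]) 1)).Mem G := by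
  let h0 : k[X] := bin4 (lead (cf (RingHom.id k) f)) (X : k[X]) 1
  have h1 : bin4 (lead (cf (algebraMap k K) f)) (X : K[X]) 1 = h0.map (algebraMap k K) := by
    simp only [h0, bin4, lead, cf, Polynomial.map_add, Polynomial.map_mul, Polynomial.map_pow,
      Polynomial.map_one, Polynomial.map_X, Polynomial.algebraMap_eq, Polynomial.map_C,
      RingHom.id_apply]
  have h3 : bin4 (lead (cc w (cf (algebraMap k K) f))) (X : K[X]) 1 =
      C (-4 * w) * (h0.map (algebraMap k K)) := by
    rw [← h1]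
    simp only [bin4, lead, cc, Polynomial.algebraMap_eq]
    norm_num
    ring
  rw [h3]
  refine BC.smul _ ?_ ?_
  · have h4 : (4 : K) = 2 * 2 := by norm_num
    rw [h4]
    exact mul_ne_zero (neg_ne_zero.2 (mul_ne_zero h2 h2)) hw
  · obtain ⟨a, ha⟩ := rep_BC (K := K) h0
    refine Mem.of_rep hG.toKOps ha (hW _ ?_ (dim_BC h0))
    have h5 : Algebra.FiniteType ℤ k := by
      have : Module.Finite ℤ k := Module.Finite.of_finite
      infer_instance
    have h6 : Algebra.FiniteType ℤ k[X] := ft_alg h5 inferInstance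
    have h7 : Algebra.FiniteType ℤ (Polynomial k[X]) := ft_alg h6 inferInstance
    exact ft_of_surj h7 (AdjoinRoot.mk _) AdjoinRoot.mk_surjective

theorem not_cyl {k : Type} [Field k] [Algebra k K] (h2 : (2 : K) ≠ 0) (f : MvPolynomial (Fin 2) k)
    (hf : f.totalDegree ≤ 4) (h : ¬ Cyl K f) {w : K} (hw : w ≠ 0) :
    ¬ Cyl' (cc w (cf (algebraMap k K) f)) := by
  rintro ⟨q₀, q₁, hq, hinv⟩
  apply h
  refine ⟨![q₀, q₁], ?_, ?_⟩
  · intro h0
    rcases hq with hq | hq
    · exact hq (congrFun h0 0)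
    · exact hq (congrFun h0 1)
  · intro R _ _ _ _ x t
    have h1 : ∀ y : Fin 2 → R, MvPolynomial.aeval y f =
        F4 (cf (algebraMap k K) f) (y 0) (y 1) 1 := by
      intro y
      rw [← eval_F4 (algebraMap k K) f hf, MvPolynomial.aeval_def,
        IsScalarTower.algebraMap_eq k K R]
    rw [h1, h1]
    have h3 := hinv R (x 0) (x 1) t
    rw [F4_cc, F4_cc] at h3
    have hu : IsUnit (4 * algebraMap K R w) := by
      have h4 : (4 : R) = algebraMap K R (2 * 2) := by
        rw [map_mul, map_ofNat]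
        norm_num
      rw [h4]
      exact (unit_const (mul_ne_zero h2 h2)).mul (unit_const hw)
    apply hu.mul_left_cancel
    have h5 : (4 * algebraMap K R w) * F4 (cf (algebraMap k K) f)
        (x 0 + t * algebraMap K R q₀) (x 1 + t * algebraMap K R q₁) 1 =
        (4 * algebraMap K R w) * F4 (cf (algebraMap k K) f) (x 0) (x 1) 1 := by
      linear_combination -h3
    exact h5

end

/-- the statement of the geometric theorem -/
def GeoMain : Prop :=
  ∀ (K : Type) [Field K] [IsAlgClosed K] (G : ∀ (R : Type) [CommRing R] [Algebra K R], Prop),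
    (2 : K) ≠ 0 → GOps K G → ∀ c : ℕ → ℕ → K,
    (BC (bin4 (lead c) (X : K[X]) 1)).Mem G → ¬ Cyl' c → (V c).Mem G

/-- the fibres over the line -/
theorem fibre_mem (geo : GeoMain) {k : Type} [Field k] [Finite k] {K : Type} [Field K]
    [IsAlgClosed K] (φ : k[X] →+* K) (h2 : (2 : K) ≠ 0)
    {G : ∀ (R : Type) [CommRing R] [Algebra K R], Prop} (hG : GOps K G)
    (hW : ∀ (_ : Algebra k K) (W : Type) [CommRing W] [Algebra k W], Algebra.FiniteType ℤ W →
      ringKrullDim W ≤ 1 → G (K ⊗[k] W)) (f : MvPolynomial (Fin 2) k) (hf : f.totalDegree ≤ 4)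
    (hcyl : ∀ _ : Algebra k K, ¬ Cyl K f) {n : ℕ} (hn : 0 < n) :
    (fib (φ X) n (cf (φ.comp C) f)).Mem G := by
  let _ : Algebra k K := (φ.comp C).toAlgebra
  by_cases hz : φ X = 0
  · rw [hz]
    exact mem_fib_zero hG hn _
  · have hzn : (φ X) ^ n ≠ 0 := pow_ne_zero n hz
    have h3 : algebraMap k K = φ.comp C := rfl
    rw [← h3]
    have h4 : (V (cc (φ X ^ n) (cf (algebraMap k K) f))).Mem G :=
      geo K G h2 hG _ (mem_inf h2 hG (hW _) f hzn) (not_cyl h2 f hf (hcyl _) hzn)
    exact mem_fib_ne h2 h4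

/-- the geometric class has all the operations -/
theorem geo_gops {S : ∀ (A : Type) [CommRing A], Prop} (hS : SOps S) (K : Type) [Field K] :
    GOps K (fun R _ _ => Geometric (fun W _ => MultS S W) K R) :=
  { geometric_kops (mult_ops hS) K with
    one := Geometric.iso _ _ (Algebra.TensorProduct.rid ℤ K K)
      (Geometric.const ℤ (MultS.curve hS .base))
    transfer := fun R _ _ g h1 h3 h4 h5 => Geometric.transfer R g h1 h3 h4 h5 }

/-- **(F)** the fibre decomposition -/
theorem thr_mem (geo : GeoMain) {p : ℕ} (hp : p.Prime) (hp2 : p ≠ 2)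
    {P : ∀ (A : Type) [CommRing A], Prop}
    (hP : FormalClass p P) (k : Type) [Field k] [Finite k] [CharP k p]
    (f : MvPolynomial (Fin 2) k) (hf : f.totalDegree ≤ 4)
    (hcyl : ∀ (K : Type) [Field K] [IsAlgClosed K] [Algebra k K], ¬ Cyl K f) (n : ℕ)
    (hn : 0 < n) : P (Thr n f) := by
  have hS := Pool.Agent.Helper9.CQ.Sops.sops hp hP
  have hft1 : Algebra.FiniteType ℤ k := by
    have : Module.Finite ℤ k := Module.Finite.of_finite
    infer_instance
  have hft2 : Algebra.FiniteType ℤ k[X] := ft_alg hft1 inferInstance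
  have hft3 : Algebra.FiniteType ℤ (Thr n f) := by
    have h6 := ft_alg (S := MvPolynomial (Fin 2) k) hft1 inferInstance
    have h7 := ft_alg (S := Polynomial (MvPolynomial (Fin 2) k)) h6 inferInstance
    have h8 := ft_alg (S := Polynomial (Polynomial (MvPolynomial (Fin 2) k))) h7 inferInstance
    exact ft_of_surj h8 (AdjoinRoot.mk _) AdjoinRoot.mk_surjective
  let _ : Algebra k[X] (Thr n f) := (base n f).toAlgebra
  have hft4 : Algebra.FiniteType k[X] (Thr n f) :=
    Algebra.FiniteType.of_restrictScalars_finiteType ℤ k[X] (Thr n f)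
  have hdim : ∀ q : Ideal k[X], ringKrullDim (k[X] ⧸ q) ≤ 1 := by
    intro q
    refine (ringKrullDim_quotient_le q).trans ?_
    rw [Polynomial.ringKrullDim_of_isNoetherianRing, ringKrullDim_eq_zero_of_field]
    exact le_of_eq (zero_add 1)
  have hmult : MultS (fun A _ => Algebra.FiniteType ℤ A ∧ P (ZMod p ⊗[ℤ] A)) (Thr n f) := by
    refine Pool.Agent.Helper20.BL.fibres_mult hS hft2 hft4 ?_ ?_
    · intro q _ _
      have h2 : (2 : AlgebraicClosure q.ResidueField) ≠ 0 := by
        have hcp : CharP (AlgebraicClosure q.ResidueField) p :=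
          charP_of_injective_ringHom (((algebraMap k[X]
            (AlgebraicClosure q.ResidueField)).comp C).injective) p
        intro h
        have h1 := (CharP.cast_eq_zero_iff (AlgebraicClosure q.ResidueField) p 2).1
          (by exact_mod_cast h)
        exact hp2 ((Nat.prime_dvd_prime_iff_eq hp Nat.prime_two).1 h1)
      obtain ⟨a, ha⟩ := rep_fib n f hf (K := AlgebraicClosure q.ResidueField)
      have hmem := fibre_mem geo (algebraMap k[X] (AlgebraicClosure q.ResidueField)) h2
        (geo_gops hS (AlgebraicClosure q.ResidueField)) (fun _ W _ _ h1 h3 =>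
          Pool.Agent.Helper9.CQ.ConstOver.const_over W
            (MultS.curve hS (CurveProd.of_dim h1 h3))) f hf (fun _ => hcyl _) hn
      exact hmem _ a (Algebra.FiniteType.baseChange _) ha
    · intro q _ h
      exact absurd h (not_lt.2 (hdim q))
  have h1 := (MultS.mem hS hmult).2
  have hchar : ((p : ℕ) : Thr n f) = 0 := by
    have h5 : ((p : ℕ) : k) = 0 := CharP.cast_eq_zero k p
    have h6 := congrArg (algebraMap k (Thr n f)) h5
    rwa [map_natCast, map_zero] at h6
  obtain ⟨e⟩ := zmod_ten (Thr n f) hchar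
  exact hP.iso _ _ e h1

end Pool.Agent.Helper9.CQ.Thr
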